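import Pool.Agent.Lib.MP_571595_lc.MORT.Base

/-!
# From hitting to mortality
-/

set_option autoImplicit false

namespace Pool.Agent.Lib.MP_571595_lc.MORT.H41

open Matrix

/-- clearing the denominators of one rational number -/
theorem exists_int_mul (x : ℚ) (N : ℕ) (h : x.den ∣ N) : ∃ z : ℤ, (z : ℚ) = (N : ℚ) * x := by
  obtain ⟨k, rfl⟩ := h
  refine ⟨k * x.num, ?_⟩
  have h1 : (x.den : ℚ) * x = x.num := Rat.den_mul_eq_num x
  push_cast
  rw [← h1]
  ring

/-- clearing the denominators of a rational matrix -/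
theorem exists_int_matrix (M : Matrix (Fin 2) (Fin 2) ℚ) :
    ∃ (N : ℕ) (Z : Matrix (Fin 2) (Fin 2) ℤ), N ≠ 0 ∧
      Z.map (Int.cast : ℤ → ℚ) = (N : ℚ) • M := by
  set N : ℕ := (M 0 0).den * (M 0 1).den * (M 1 0).den * (M 1 1).den with hN
  have hN0 : N ≠ 0 := by
    rw [hN]
    have h1 := (M 0 0).den_nz
    have h2 := (M 0 1).den_nz
    have h3 := (M 1 0).den_nz
    have h4 := (M 1 1).den_nz
    positivity
  have hd : ∀ i j : Fin 2, (M i j).den ∣ N := by
    intro i j
    rw [hN]
    fin_cases i <;> fin_cases j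
    · exact Dvd.intro ((M 0 1).den * (M 1 0).den * (M 1 1).den) (by simp; ring)
    · exact Dvd.intro ((M 0 0).den * (M 1 0).den * (M 1 1).den) (by simp; ring)
    · exact Dvd.intro ((M 0 0).den * (M 0 1).den * (M 1 1).den) (by simp; ring)
    · exact Dvd.intro ((M 0 0).den * (M 0 1).den * (M 1 0).den) (by simp; ring)
  choose z hz using fun i j => exists_int_mul (M i j) N (hd i j)
  refine ⟨N, Matrix.of z, hN0, ?_⟩
  ext i j
  simp [hz]

/-- the form of a product of integer matrices, some of which are of rank one -/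
theorem prod_form {ι : Type} (Z : ι → Matrix (Fin 2) (Fin 2) ℤ) (v w : Fin 2 → ℤ)
    (hne : ∀ u : List ι, w ⬝ᵥ ((u.map Z).prod *ᵥ v) ≠ 0)
    (l : List (Matrix (Fin 2) (Fin 2) ℤ)) (hl : ∀ x ∈ l, (∃ i, x = Z i) ∨ x = vecMulVec v w) :
    (∃ u : List ι, l.prod = (u.map Z).prod) ∨
      ∃ (u u' : List ι) (c : ℤ), c ≠ 0 ∧
        l.prod = c • vecMulVec ((u.map Z).prod *ᵥ v) (w ᵥ* (u'.map Z).prod) := by
  induction l with
  | nil => exact Or.inl ⟨[], by simp⟩
  | cons x l ih =>
    have ih' := ih (fun y hy => hl y (List.mem_cons_of_mem _ hy))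
    rcases hl x List.mem_cons_self with ⟨i, rfl⟩ | rfl
    · rcases ih' with ⟨u, hu⟩ | ⟨u, u', c, hc, hu⟩
      · exact Or.inl ⟨i :: u, by simp [hu]⟩
      · refine Or.inr ⟨i :: u, u', c, hc, ?_⟩
        rw [List.prod_cons, hu, Matrix.mul_smul, mul_vecMulVec, List.map_cons, List.prod_cons,
          Matrix.mulVec_mulVec]
    · rcases ih' with ⟨u, hu⟩ | ⟨u, u', c, hc, hu⟩
      · refine Or.inr ⟨[], u, 1, one_ne_zero, ?_⟩
        rw [List.prod_cons, hu, vecMulVec_mul]
        simp
      · refine Or.inr ⟨[], u', c * (w ⬝ᵥ ((u.map Z).prod *ᵥ v)), mul_ne_zero hc (hne u), ?_⟩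
        rw [List.prod_cons, hu, Matrix.mul_smul, vecMulVec_mul_vecMulVec, vecMulVec_smul, smul_smul]
        simp

/-- MORTAL -/
theorem mortal : MortalStatement := by
  classical
  intro ι _ M
  have : Fintype ι := Fintype.ofFinite ι
  choose N Z hN hZ using fun i => exists_int_matrix (M i : Matrix (Fin 2) (Fin 2) ℚ)
  have hprod : ∀ u : List ι, ((u.map Z).prod).map (Int.cast : ℤ → ℚ) =
      ((u.map fun i => (N i : ℚ)).prod) • ((u.map M).prod : G).val := by
    intro u
    induction u with
    | nil => simp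
    | cons i u ih =>
      rw [List.map_cons, List.prod_cons, List.map_cons, List.prod_cons, List.map_cons,
        List.prod_cons]
      have h1 : (Z i * (u.map Z).prod).map (Int.cast : ℤ → ℚ) =
          (Z i).map (Int.cast : ℤ → ℚ) * ((u.map Z).prod).map (Int.cast : ℤ → ℚ) := by
        exact Matrix.map_mul (f := Int.castRingHom ℚ)
      rw [h1, ih, hZ, Units.val_mul, Matrix.smul_mul, Matrix.mul_smul, smul_smul]
  have hNp : ∀ u : List ι, (u.map fun i => (N i : ℚ)).prod ≠ 0 := by
    intro u
    apply List.prod_ne_zero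
    simp only [List.mem_map, not_exists, not_and]
    intro i _ h
    exact hN i (by exact_mod_cast h)
  have hdet : ∀ u : List ι, (u.map Z).prod.det ≠ 0 := by
    intro u h0
    have h1 : (((u.map Z).prod).map (Int.cast : ℤ → ℚ)).det = 0 := by
      have := (Int.castRingHom ℚ).map_det ((u.map Z).prod)
      rw [h0] at this
      simpa using this.symm
    rw [hprod, Matrix.det_smul] at h1
    have h2 := ((u.map M).prod : G).det_ne_zero
    have h3 := hNp u
    simp only [Fintype.card_fin, mul_eq_zero, pow_eq_zero_iff, ne_eq, OfNat.ofNat_ne_zero,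
      not_false_eq_true] at h1
    rcases h1 with h1 | h1
    · exact h3 h1
    · exact h2 h1
  refine ⟨(Finset.univ : Finset ι).toList.map
    (fun i => (Z i 0 0, Z i 0 1, Z i 1 0, Z i 1 1)), ?_⟩
  intro a b c d hab hcd
  set v : Fin 2 → ℤ := ![a, b] with hv
  set w : Fin 2 → ℤ := ![c, d] with hw
  have hS : (!![a * c, a * d; b * c, b * d] : Matrix (Fin 2) (Fin 2) ℤ) = vecMulVec v w := by
    ext i j
    fin_cases i <;> fin_cases j <;> simp [vecMulVec_apply, hv, hw]
  -- the value of a word
  have hval : ∀ u : List ι, ((w ⬝ᵥ ((u.map Z).prod *ᵥ v) : ℤ) : ℚ) =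
      (u.map fun i => (N i : ℚ)).prod *
        ((c : ℚ) * ((u.map M).prod 0 0 * a + (u.map M).prod 0 1 * b) +
          d * ((u.map M).prod 1 0 * a + (u.map M).prod 1 1 * b)) := by
    intro u
    have h00 := congrFun (congrFun (hprod u) 0) 0
    have h01 := congrFun (congrFun (hprod u) 0) 1
    have h10 := congrFun (congrFun (hprod u) 1) 0
    have h11 := congrFun (congrFun (hprod u) 1) 1
    simp only [Matrix.map_apply, Matrix.smul_apply, smul_eq_mul] at h00 h01 h10 h11
    simp only [hv, hw, dotProduct, Matrix.mulVec, Fin.sum_univ_two, Matrix.cons_val_zero,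
      Matrix.cons_val_one]
    push_cast
    rw [h00, h01, h10, h11]
    ring
  have hzero : ∀ u : List ι, w ⬝ᵥ ((u.map Z).prod *ᵥ v) = 0 ↔
      (c : ℚ) * ((u.map M).prod 0 0 * a + (u.map M).prod 0 1 * b) +
          d * ((u.map M).prod 1 0 * a + (u.map M).prod 1 1 * b) = 0 := by
    intro u
    have h1 := hval u
    constructor
    · intro h
      rw [h, Int.cast_zero] at h1
      rcases mul_eq_zero.mp h1.symm with h2 | h2
      · exact absurd h2 (hNp u)
      · exact h2
    · intro h
      rw [h, mul_zero] at h1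
      exact_mod_cast h1
  have hvne : v ≠ 0 := by
    intro h
    have h0 := congrFun h 0
    have h1 := congrFun h 1
    simp [hv] at h0 h1
    rcases hab with h | h
    · exact h h0
    · exact h h1
  have hwne : w ≠ 0 := by
    intro h
    have h0 := congrFun h 0
    have h1 := congrFun h 1
    simp [hw] at h0 h1
    rcases hcd with h | h
    · exact h h0
    · exact h h1
  have htup : ∀ i, (!![Z i 0 0, Z i 0 1; Z i 1 0, Z i 1 1] : Matrix (Fin 2) (Fin 2) ℤ) = Z i :=
    fun i => (Matrix.eta_fin_two (Z i)).symm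
  constructor
  · -- mortal implies hitting
    rintro ⟨l, hl0, hl, hprod0⟩
    by_contra hcon
    push Not at hcon
    have hne : ∀ u : List ι, w ⬝ᵥ ((u.map Z).prod *ᵥ v) ≠ 0 := by
      intro u h
      exact hcon u ((hzero u).mp h)
    have hform := prod_form Z v w hne
      (l.map (fun x : ℤ × ℤ × ℤ × ℤ => !![x.1, x.2.1; x.2.2.1, x.2.2.2])) (by
        intro x hx
        rw [List.mem_map] at hx
        obtain ⟨y, hy, rfl⟩ := hx
        have hy' := hl y hy
        rw [List.mem_append, List.mem_map, List.mem_singleton] at hy'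
        rcases hy' with ⟨i, _, rfl⟩ | rfl
        · exact Or.inl ⟨i, htup i⟩
        · exact Or.inr hS)
    rw [hprod0] at hform
    rcases hform with ⟨u, hu⟩ | ⟨u, u', k, hk, hu⟩
    · apply hdet u
      rw [← hu]
      simp
    · have h1 := (smul_eq_zero.mp hu.symm).resolve_left hk
      rw [vecMulVec_eq_zero] at h1
      rcases h1 with h1 | h1
      · exact hvne (Matrix.eq_zero_of_mulVec_eq_zero (hdet u) h1)
      · exact hwne (Matrix.eq_zero_of_vecMul_eq_zero (hdet u') h1)
  · -- hitting implies mortal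
    rintro ⟨u, hu⟩
    refine ⟨(a * c, a * d, b * c, b * d) ::
      (u.map (fun i => (Z i 0 0, Z i 0 1, Z i 1 0, Z i 1 1)) ++
        [(a * c, a * d, b * c, b * d)]), by simp, ?_, ?_⟩
    · intro x hx
      rw [List.mem_cons, List.mem_append, List.mem_map, List.mem_singleton] at hx
      rw [List.mem_append, List.mem_map, List.mem_singleton]
      rcases hx with rfl | ⟨i, _, rfl⟩ | rfl
      · exact Or.inr rfl
      · exact Or.inl ⟨i, by simp, rfl⟩
      · exact Or.inr rfl
    · rw [List.map_cons, List.prod_cons, List.map_append, List.prod_append, List.map_map]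
      have h1 : ((fun x : ℤ × ℤ × ℤ × ℤ =>
          (!![x.1, x.2.1; x.2.2.1, x.2.2.2] : Matrix (Fin 2) (Fin 2) ℤ)) ∘
          fun i => (Z i 0 0, Z i 0 1, Z i 1 0, Z i 1 1)) = Z := by
        funext i
        exact htup i
      rw [h1]
      simp only [List.map_cons, List.map_nil, List.prod_cons, List.prod_nil, mul_one]
      rw [hS, mul_vecMulVec, vecMulVec_mul_vecMulVec, (hzero u).mpr hu]
      simp

end Pool.Agent.Lib.MP_571595_lc.MORT.H41
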