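import Pool.Agent.Lib.MP_571595_lc.MORT.H41.Mortal

/-!
# The reduction: from hitting to mortality, with the instance computed from `N`
-/

set_option autoImplicit false

namespace Pool.Agent.Lib.MP_571595_lc.MORT.H41

open Matrix

/-- the point represented by a vector -/
noncomputable def ofVec (x y : ℚ) : OnePoint ℚ := if y = 0 then OnePoint.infty else ((x / y : ℚ) : OnePoint ℚ)

theorem smul_ofVec (g : G) (x y : ℚ) (h : x ≠ 0 ∨ y ≠ 0) :
    g • ofVec x y = ofVec (g 0 0 * x + g 0 1 * y) (g 1 0 * x + g 1 1 * y) := by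
  unfold ofVec
  by_cases hy : y = 0
  · subst hy
    have hx : x ≠ 0 := by simpa using h
    rw [if_pos rfl, OnePoint.smul_infty_eq_ite]
    by_cases hg : g 1 0 = 0
    · simp [hg]
    · have h2 : g 1 0 * x + g 1 1 * 0 ≠ 0 := by simp [hg, hx]
      rw [if_neg hg, if_neg h2]
      have h3 : g 0 0 / g 1 0 = (g 0 0 * x + g 0 1 * 0) / (g 1 0 * x + g 1 1 * 0) := by
        rw [mul_zero, mul_zero, add_zero, add_zero, mul_div_mul_right _ _ hx]
      rw [← h3]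
  · rw [if_neg hy, OnePoint.smul_some_eq_ite]
    have e : g 1 0 * (x / y) + g 1 1 = (g 1 0 * x + g 1 1 * y) / y := by
      field_simp
    by_cases hd : g 1 0 * x + g 1 1 * y = 0
    · rw [if_pos (by rw [e, hd, zero_div]), if_pos hd]
    · have hd' : g 1 0 * (x / y) + g 1 1 ≠ 0 := by
        rw [e]
        exact div_ne_zero hd hy
      rw [if_neg hd', if_neg hd]
      have e2 : g 0 0 * (x / y) + g 0 1 = (g 0 0 * x + g 0 1 * y) / y := by
        field_simp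
      rw [e, e2, div_div_div_cancel_right₀ hy]

theorem ofVec_eq_iff (x y x' y' : ℚ) (h : x ≠ 0 ∨ y ≠ 0) (h' : x' ≠ 0 ∨ y' ≠ 0) :
    ofVec x y = ofVec x' y' ↔ x * y' - y * x' = 0 := by
  unfold ofVec
  by_cases hy : y = 0
  · subst hy
    have hx : x ≠ 0 := by simpa using h
    by_cases hy' : y' = 0
    · simp [hy']
    · rw [if_pos rfl, if_neg hy']
      simp [hx, hy']
  · by_cases hy' : y' = 0
    · subst hy'
      have hx' : x' ≠ 0 := by simpa using h'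
      rw [if_neg hy, if_pos rfl]
      simp [hx', hy]
    · rw [if_neg hy, if_neg hy', OnePoint.coe_eq_coe, div_eq_div_iff hy hy', sub_eq_zero,
        mul_comm x' y]

theorem pt_L (z : ℚ) (hz : z ≠ 0) : pt .L z = ofVec 1 z := by
  unfold ofVec pt
  simp [hz]

theorem vec_ne (g : G) (x y : ℚ) (h : x ≠ 0 ∨ y ≠ 0) :
    g 0 0 * x + g 0 1 * y ≠ 0 ∨ g 1 0 * x + g 1 1 * y ≠ 0 := by
  by_contra hcon
  push Not at hcon
  obtain ⟨h1, h2⟩ := hcon
  have hd : g 0 0 * g 1 1 - g 0 1 * g 1 0 ≠ 0 := by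
    have := g.det_ne_zero
    rwa [Matrix.det_fin_two] at this
  rcases h with h | h
  · apply mul_ne_zero hd h
    linear_combination g 1 1 * h1 - g 0 1 * h2
  · apply mul_ne_zero hd h
    linear_combination g 0 0 * h2 - g 1 0 * h1

/-- a code for the transitions -/
def trCode {J Q R : Type} : Tr J Q R → Fin 9 × Option Q × Option R × Option J
  | .tU q j => (0, some q, none, some j)
  | .gU r => (1, none, some r, none)
  | .tL r j => (2, none, some r, some j)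
  | .gL r => (3, none, some r, none)
  | .g0 => (4, none, none, none)
  | .aU j => (5, none, none, some j)
  | .aG => (6, none, none, none)
  | .aL j => (7, none, none, some j)
  | .aH => (8, none, none, none)

theorem trCode_injective {J Q R : Type} :
    Function.Injective (trCode : Tr J Q R → Fin 9 × Option Q × Option R × Option J) := by
  intro a b h
  cases a <;> cases b <;> simp [trCode] at h ⊢ <;> exact h

instance finiteTr {J Q R : Type} [Finite J] [Finite Q] [Finite R] : Finite (Tr J Q R) :=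
  Finite.of_injective _ trCode_injective

theorem toZ_single_succ (N : ℕ) : toZ (Pi.single (0 : Fin 5) (N + 1)) =
    toZ (Pi.single (0 : Fin 5) N) + Pi.single (0 : Fin 5) 1 := by
  funext j
  by_cases hj : j = 0
  · subst hj
    simp [toZ]
  · simp [toZ, hj]

theorem rho_zero {J Q R : Type} [Fintype J] {C : CM J Q R} (D : Data C) : D.rho 0 = 1 := by
  have h := D.rho_add 0 0
  rw [add_zero] at h
  exact (mul_eq_left.mp h.symm)

theorem rho_toZ {Q R : Type} {C : CM (Fin 5) Q R} (D : Data C) (N : ℕ) :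
    (D.rho (toZ (Pi.single (0 : Fin 5) N)) : ℚ) = (D.rho (Pi.single (0 : Fin 5) 1) : ℚ) ^ N := by
  induction N with
  | zero =>
    have h : toZ (Pi.single (0 : Fin 5) 0) = 0 := by
      funext j
      simp [toZ]
    rw [h, rho_zero]
    simp
  | succ N ih => rw [toZ_single_succ, D.rho_add, Units.val_mul, ih, pow_succ]

/-- RED -/
theorem red : RedStatement := by
  classical
  intro Q R _ _ C D
  obtain ⟨L, hL⟩ := mortal (ι := {x : Option (Tr (Fin 5) Q R) // ∀ τ, x = some τ → τ.ok C})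
    (fun x => D.letter x.1)
  -- the vector of `x0`
  obtain ⟨g, hg⟩ : ∃ g : G, g = (D.Cm (aeS false))⁻¹ := ⟨_, rfl⟩
  obtain ⟨h, hh⟩ : ∃ h : G, h = (D.Cm (aeS true))⁻¹ := ⟨_, rfl⟩
  obtain ⟨a', ha'⟩ : ∃ a' : ℚ, a' = g 0 0 * 1 + g 0 1 * (-D.s) := ⟨_, rfl⟩
  obtain ⟨b', hb'⟩ : ∃ b' : ℚ, b' = g 1 0 * 1 + g 1 1 * (-D.s) := ⟨_, rfl⟩
  have hab' : a' ≠ 0 ∨ b' ≠ 0 := by
    rw [ha', hb']
    exact vec_ne g 1 (-D.s) (Or.inl one_ne_zero)
  obtain ⟨K, Z, hK, hZ⟩ := exists_int_matrix !![a', b'; 0, 0]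
  have hKq : (K : ℚ) ≠ 0 := by exact_mod_cast hK
  have hZ0 : (Z 0 0 : ℚ) = K * a' := by
    have := congrFun (congrFun hZ 0) 0
    simpa using this
  have hZ1 : (Z 0 1 : ℚ) = K * b' := by
    have := congrFun (congrFun hZ 0) 1
    simpa using this
  -- the vector orthogonal to `y`
  obtain ⟨K2, Z2, hK2, hZ2⟩ := exists_int_matrix !![h 1 0, -(h 1 1 * D.p); -h 0 0, h 0 1 * D.p]
  have hK2q : (K2 : ℚ) ≠ 0 := by exact_mod_cast hK2
  have h200 : (Z2 0 0 : ℚ) = K2 * h 1 0 := by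
    have := congrFun (congrFun hZ2 0) 0
    simpa using this
  have h201 : (Z2 0 1 : ℚ) = K2 * -(h 1 1 * D.p) := by
    have := congrFun (congrFun hZ2 0) 1
    simpa using this
  have h210 : (Z2 1 0 : ℚ) = K2 * -h 0 0 := by
    have := congrFun (congrFun hZ2 1) 0
    simpa using this
  have h211 : (Z2 1 1 : ℚ) = K2 * (h 0 1 * D.p) := by
    have := congrFun (congrFun hZ2 1) 1
    simpa using this
  -- the multiplier
  obtain ⟨u, hu⟩ : ∃ u : ℚ, u = (D.rho (Pi.single (0 : Fin 5) 1) : ℚ) := ⟨_, rfl⟩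
  have hupos : 0 < u := by rw [hu]; exact D.rho_pos _
  have hβ : (u.den : ℚ) ≠ 0 := by exact_mod_cast u.den_nz
  obtain ⟨α, hα⟩ : ∃ α : ℕ, (α : ℚ) = u * u.den := by
    refine ⟨u.num.toNat, ?_⟩
    have h1 : (u.num.toNat : ℤ) = u.num := Int.toNat_of_nonneg (Rat.num_nonneg.mpr hupos.le)
    rw [Rat.mul_den_eq_num]
    exact_mod_cast h1
  obtain ⟨β, hβ2⟩ : ∃ β : ℕ, β = u.den := ⟨_, rfl⟩
  rw [← hβ2] at hβ hα
  refine ⟨L, α, β,
    ![Z 0 0 * Z2 0 1, Z 0 0 * Z2 1 1, Z 0 1 * Z2 0 1, Z 0 1 * Z2 1 1],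
    ![Z 0 0 * Z2 0 0, Z 0 0 * Z2 1 0, Z 0 1 * Z2 0 0, Z 0 1 * Z2 1 0], ?_⟩
  intro N
  obtain ⟨c, hc⟩ : ∃ c : ℤ, c = Z2 0 1 * (α : ℤ) ^ N + Z2 0 0 * (β : ℤ) ^ N :=
    ⟨_, rfl⟩
  obtain ⟨d, hd⟩ : ∃ d : ℤ, d = Z2 1 1 * (α : ℤ) ^ N + Z2 1 0 * (β : ℤ) ^ N :=
    ⟨_, rfl⟩
  have hlast : lastM α β
      ![Z 0 0 * Z2 0 1, Z 0 0 * Z2 1 1, Z 0 1 * Z2 0 1, Z 0 1 * Z2 1 1]
      ![Z 0 0 * Z2 0 0, Z 0 0 * Z2 1 0, Z 0 1 * Z2 0 0, Z 0 1 * Z2 1 0] N =
      (Z 0 0 * c, Z 0 0 * d, Z 0 1 * c, Z 0 1 * d) := by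
    rw [hc, hd]
    unfold lastM
    refine Prod.ext ?_ (Prod.ext ?_ (Prod.ext ?_ ?_))
    · change Z 0 0 * Z2 0 1 * _ + Z 0 0 * Z2 0 0 * _ = _
      ring
    · change Z 0 0 * Z2 1 1 * _ + Z 0 0 * Z2 1 0 * _ = _
      ring
    · change Z 0 1 * Z2 0 1 * _ + Z 0 1 * Z2 0 0 * _ = _
      ring
    · change Z 0 1 * Z2 1 1 * _ + Z 0 1 * Z2 1 0 * _ = _
      ring
  -- the coordinates of `y`
  obtain ⟨y0, hy0⟩ : ∃ y0 : ℚ, y0 = h 0 0 * 1 + h 0 1 * (-(D.p * u ^ N)) := ⟨_, rfl⟩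
  obtain ⟨y1, hy1⟩ : ∃ y1 : ℚ, y1 = h 1 0 * 1 + h 1 1 * (-(D.p * u ^ N)) := ⟨_, rfl⟩
  have hy : y0 ≠ 0 ∨ y1 ≠ 0 := by
    rw [hy0, hy1]
    exact vec_ne h 1 _ (Or.inl one_ne_zero)
  have hcq : (c : ℚ) = K2 * (β : ℚ) ^ N * y1 := by
    rw [hc]
    push_cast
    rw [hα, h201, h200, hy1, mul_pow]
    ring
  have hdq : (d : ℚ) = -(K2 * (β : ℚ) ^ N * y0) := by
    rw [hd]
    push_cast
    rw [hα, h211, h210, hy0, mul_pow]
    ring
  have hKβ : (K2 : ℚ) * (β : ℚ) ^ N ≠ 0 := mul_ne_zero hK2q (pow_ne_zero _ hβ)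
  have hcd : c ≠ 0 ∨ d ≠ 0 := by
    rcases hy with h1 | h1
    · right
      intro h2
      rw [h2, Int.cast_zero] at hdq
      exact mul_ne_zero hKβ h1 (neg_eq_zero.mp hdq.symm)
    · left
      intro h2
      rw [h2, Int.cast_zero] at hcq
      exact mul_ne_zero hKβ h1 hcq.symm
  have hab : Z 0 0 ≠ 0 ∨ Z 0 1 ≠ 0 := by
    rcases hab' with h1 | h1
    · left
      intro h2
      rw [h2, Int.cast_zero] at hZ0
      exact mul_ne_zero hKq h1 hZ0.symm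
    · right
      intro h2
      rw [h2, Int.cast_zero] at hZ1
      exact mul_ne_zero hKq h1 hZ1.symm
  rw [hlast, hL (Z 0 0) (Z 0 1) c d hab hcd]
  -- the points
  have hx0 : D.pe (Pi.single 0 N) false = ofVec a' b' := by
    have hs : -D.s ≠ 0 := neg_ne_zero.mpr D.s_ne
    unfold Data.pe Data.ec
    simp only
    rw [← hg, pt_L _ hs, smul_ofVec g 1 (-D.s) (Or.inl one_ne_zero), ← ha', ← hb']
  have hyy : D.pe (Pi.single 0 N) true = ofVec y0 y1 := by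
    have hp : -(D.p * (D.rho (toZ (Pi.single (0 : Fin 5) N)) : ℚ)) ≠ 0 :=
      neg_ne_zero.mpr (mul_ne_zero D.p_ne (Units.ne_zero _))
    unfold Data.pe Data.ec
    simp only
    rw [← hh, pt_L _ hp, smul_ofVec h 1 _ (Or.inl one_ne_zero), rho_toZ, ← hu, ← hy0, ← hy1]
  have hkey : ∀ P : G, P • D.pe (Pi.single 0 N) false = D.pe (Pi.single 0 N) true ↔
      (c : ℚ) * (P 0 0 * (Z 0 0 : ℚ) + P 0 1 * (Z 0 1 : ℚ)) +
        d * (P 1 0 * (Z 0 0 : ℚ) + P 1 1 * (Z 0 1 : ℚ)) = 0 := by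
    intro P
    rw [hx0, hyy, smul_ofVec P a' b' hab', ofVec_eq_iff _ _ _ _ (vec_ne P a' b' hab') hy,
      hcq, hdq, hZ0, hZ1]
    have e : K2 * (β : ℚ) ^ N * y1 * (P 0 0 * (K * a') + P 0 1 * (K * b')) +
        -(K2 * (β : ℚ) ^ N * y0) * (P 1 0 * (K * a') + P 1 1 * (K * b')) =
        (K2 * (β : ℚ) ^ N * K) *
          ((P 0 0 * a' + P 0 1 * b') * y1 - (P 1 0 * a' + P 1 1 * b') * y0) := by
      ring
    rw [e, mul_eq_zero]
    constructor
    · intro h1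
      exact Or.inr h1
    · rintro (h1 | h1)
      · exact absurd h1 (mul_ne_zero hKβ hKq)
      · exact h1
  constructor
  · rintro ⟨w, hw⟩
    refine ⟨w.map Subtype.val, ?_, ?_⟩
    · intro τ hτ
      rw [List.mem_map] at hτ
      obtain ⟨x, _, hx⟩ := hτ
      exact x.2 τ hx
    · rw [hkey, List.map_map]
      exact hw
  · rintro ⟨w, hw, hw2⟩
    have hlift : ∀ x ∈ w, ∀ τ, x = some τ → τ.ok C := by
      intro x hx τ hτ
      subst hτ
      exact hw τ hx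
    obtain ⟨w', rfl⟩ : ∃ w' : List {x : Option (Tr (Fin 5) Q R) // ∀ τ, x = some τ → τ.ok C},
        w'.map Subtype.val = w := by
      refine ⟨w.attachWith _ hlift, ?_⟩
      simp
    refine ⟨w', ?_⟩
    rw [hkey, List.map_map] at hw2
    exact hw2

end Pool.Agent.Lib.MP_571595_lc.MORT.H41
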